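import Mathlib
import Pool.Agent.R982.CBSTree

/-!
Recursions for the height of the critical beta-splitting tree.
-/

set_option autoImplicit false

namespace Pool.Agent.U736.CE

open BinaryTree Finset Filter Topology Pool.Agent.R982.CBS

/-- The height: the largest depth of a leaf. -/
def maxDepth (t : BinaryTree Unit) : ℕ := (leafDepths t).foldr max 0

lemma foldr_max_append (L L' : List ℕ) :
    (L ++ L').foldr max 0 = max (L.foldr max 0) (L'.foldr max 0) := by
  induction L with
  | nil => simp
  | cons x L ih => simp only [List.cons_append, List.foldr_cons, ih, max_assoc]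

lemma foldr_max_map_succ (L : List ℕ) (h : L ≠ []) :
    (L.map (fun d => d + 1)).foldr max 0 = L.foldr max 0 + 1 := by
  induction L with
  | nil => exact absurd rfl h
  | cons x L ih =>
    rcases eq_or_ne L [] with h0 | h0
    · subst h0; simp
    · simp only [List.map_cons, List.foldr_cons, ih h0]
      omega

lemma leafDepths_ne_nil (t : BinaryTree Unit) : leafDepths t ≠ [] := by
  intro h
  have h1 := length_leafDepths t
  rw [h] at h1
  have h2 := numLeaves_eq_numNodes_succ t
  simp at h1
  omega

lemma maxDepth_nil : maxDepth .nil = 0 := by simp [maxDepth, leafDepths]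

lemma maxDepth_node (a : Unit) (l r : BinaryTree Unit) :
    maxDepth (.node a l r) = 1 + max (maxDepth l) (maxDepth r) := by
  rw [maxDepth, leafDepths, foldr_max_map_succ, foldr_max_append, maxDepth, maxDepth, add_comm]
  intro h
  have := leafDepths_ne_nil l
  simp [List.append_eq_nil_iff] at h
  exact this h.1

lemma treeProb_nonneg (t : BinaryTree Unit) : 0 ≤ treeProb t := by
  induction t with
  | nil => simp [treeProb]
  | node a l r ihl ihr =>
    rw [treeProb]
    refine mul_nonneg ?_ (mul_nonneg ihl ihr)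
    rw [q]
    have h1 : (0 : ℝ) ≤ (harmonic (l.numLeaves + r.numLeaves - 1) : ℝ) := by
      rw [H_eq_harmonic]; exact H_nonneg _
    push_cast
    have h2 : (0 : ℝ) ≤ (l.numLeaves : ℝ) + r.numLeaves - l.numLeaves := by
      have : (0 : ℝ) ≤ (r.numLeaves : ℝ) := Nat.cast_nonneg _
      linarith
    positivity

/-- Expectation over the trees with `N` nodes. -/
noncomputable def E (N : ℕ) (F : BinaryTree Unit → ℝ) : ℝ :=
  ∑ t ∈ treesOfNumNodesEq N, treeProb t * F t

lemma E_mono {N : ℕ} {F F' : BinaryTree Unit → ℝ} (h : ∀ t, F t ≤ F' t) : E N F ≤ E N F' :=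
  sum_le_sum fun t _ => mul_le_mul_of_nonneg_left (h t) (treeProb_nonneg t)

lemma E_const (N : ℕ) (c : ℝ) : E N (fun _ => c) = c := by
  rw [E, ← sum_mul, total_mass, one_mul]

lemma E_add (N : ℕ) (F F' : BinaryTree Unit → ℝ) :
    E N (fun t => F t + F' t) = E N F + E N F' := by
  rw [E, E, E, ← sum_add_distrib]
  exact sum_congr rfl fun t _ => by ring

lemma E_const_add (N : ℕ) (c : ℝ) (F : BinaryTree Unit → ℝ) :
    E N (fun t => c + F t) = c + E N F := by
  rw [E_add N (fun _ => c) F, E_const]

lemma E_mul (N : ℕ) (c : ℝ) (F : BinaryTree Unit → ℝ) :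
    E N (fun t => c * F t) = c * E N F := by
  rw [E, E, mul_sum]
  exact sum_congr rfl fun t _ => by ring

lemma E_sum (N : ℕ) (s : Finset ℕ) (w : ℕ → ℝ) (F : ℕ → BinaryTree Unit → ℝ) :
    E N (fun t => ∑ i ∈ s, w i * F i t) = ∑ i ∈ s, w i * E N (F i) := by
  rw [E]
  simp only [mul_sum]
  rw [sum_comm]
  refine sum_congr rfl fun i _ => ?_
  rw [E, mul_sum]
  exact sum_congr rfl fun t _ => by ring

lemma E_comm (N M : ℕ) (F : BinaryTree Unit → BinaryTree Unit → ℝ) :
    E N (fun t => E M (fun r => F t r)) = E M (fun r => E N (fun t => F t r)) := by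
  simp only [E, mul_sum]
  rw [sum_comm]
  refine sum_congr rfl fun i _ => sum_congr rfl fun j _ => ?_
  ring

lemma step_eq {N : ℕ} (hN : 1 ≤ N) (F : BinaryTree Unit → ℝ) :
    E N F = ∑ i ∈ range N, W N i * E i (fun l => E (N - 1 - i) (fun r => F (.node () l r))) := by
  rw [E, sum_succ N hN]
  refine sum_congr rfl fun i _ => ?_
  congr 1
  simp only [E, mul_sum]
  refine sum_congr rfl fun l _ => sum_congr rfl fun r _ => ?_
  ring

lemma step_lower {N : ℕ} (hN : 1 ≤ N) (F F' : BinaryTree Unit → ℝ)
    (hl : ∀ l r, F' l ≤ F (.node () l r)) (hr : ∀ l r, F' r ≤ F (.node () l r)) :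
    ∑ i ∈ range N, W N i * E (max i (N - 1 - i)) F' ≤ E N F := by
  rw [step_eq hN]
  refine sum_le_sum fun i hi => mul_le_mul_of_nonneg_left ?_ (W_nonneg (mem_range.mp hi))
  by_cases h : N - 1 - i ≤ i
  · rw [max_eq_left h]
    refine E_mono fun l => ?_
    rw [← E_const (N - 1 - i) (F' l)]
    exact E_mono fun r => hl l r
  · rw [max_eq_right (by omega)]
    rw [← E_const i (E (N - 1 - i) F')]
    refine E_mono fun l => E_mono fun r => hr l r

/-- Mean height. -/
noncomputable def f (N : ℕ) : ℝ := E N (fun t => (maxDepth t : ℝ))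

/-- Mean of the maximum of two independent heights. -/
noncomputable def P (i j : ℕ) : ℝ :=
  E i (fun t => E j (fun r => max (maxDepth t : ℝ) (maxDepth r : ℝ)))

lemma P_comm (i j : ℕ) : P i j = P j i := by
  rw [P, E_comm, P]
  simp only [max_comm]

lemma f_le_P_left (i j : ℕ) : f i ≤ P i j := by
  refine E_mono fun t => ?_
  refine le_trans (le_of_eq (E_const j (maxDepth t : ℝ)).symm) ?_
  exact E_mono fun r => le_max_left _ _

lemma f_le_P (i j : ℕ) : f (max i j) ≤ P i j := by
  rcases le_total i j with h | h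
  · rw [max_eq_right h, P_comm]; exact f_le_P_left j i
  · rw [max_eq_left h]; exact f_le_P_left i j

lemma f_zero : f 0 = 0 := by
  simp [f, E, maxDepth_nil]

lemma f_rec {N : ℕ} (hN : 1 ≤ N) : f N = 1 + ∑ i ∈ range N, W N i * P i (N - 1 - i) := by
  have hone : 1 + ∑ i ∈ range N, W N i * P i (N - 1 - i)
      = ∑ i ∈ range N, W N i + ∑ i ∈ range N, W N i * P i (N - 1 - i) := by
    rw [W_sum N hN]
  rw [hone, f, step_eq hN, ← sum_add_distrib]
  refine sum_congr rfl fun i _ => ?_
  have h1 : E i (fun l => E (N - 1 - i) (fun r => ((maxDepth (.node () l r) : ℕ) : ℝ)))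
      = 1 + P i (N - 1 - i) := by
    rw [P, ← E_const_add]
    congr 1
    funext l
    rw [← E_const_add]
    congr 1
    funext r
    rw [maxDepth_node]
    push_cast
    rfl
  rw [h1]
  ring

lemma P_rec {i j : ℕ} (hi : 1 ≤ i) (hj : 1 ≤ j) :
    ∑ k ∈ range i, W i k * ∑ l ∈ range j, W j l *
      (1 + P (max k (i - 1 - k)) (max l (j - 1 - l))) ≤ P i j := by
  have h1 := step_lower hi (fun t => E j (fun r => max (maxDepth t : ℝ) (maxDepth r : ℝ)))
    (fun A => E j (fun r => max (1 + (maxDepth A : ℝ)) (maxDepth r : ℝ)))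
    (fun l r => E_mono fun s => by
      rw [maxDepth_node]; push_cast
      exact max_le_max (add_le_add_right (le_max_left _ _) _) le_rfl)
    (fun l r => E_mono fun s => by
      rw [maxDepth_node]; push_cast
      exact max_le_max (add_le_add_right (le_max_right _ _) _) le_rfl)
  refine le_trans (sum_le_sum fun k hk => mul_le_mul_of_nonneg_left ?_
    (W_nonneg (mem_range.mp hk))) h1
  have h2 : ∀ A : BinaryTree Unit, ∑ l ∈ range j, W j l * E (max l (j - 1 - l))
      (fun B => 1 + max (maxDepth A : ℝ) (maxDepth B : ℝ)) ≤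
      E j (fun r => max (1 + (maxDepth A : ℝ)) (maxDepth r : ℝ)) := by
    intro A
    refine step_lower hj _ _ (fun l r => ?_) (fun l r => ?_)
    · rw [maxDepth_node]; push_cast
      rw [← max_add_add_left]
      exact max_le_max le_rfl (add_le_add_right (le_max_left _ _) _)
    · rw [maxDepth_node]; push_cast
      rw [← max_add_add_left]
      exact max_le_max le_rfl (add_le_add_right (le_max_right _ _) _)
  refine le_trans (le_of_eq ?_) (E_mono h2)
  rw [E_sum]
  refine sum_congr rfl fun l _ => ?_
  congr 1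
  rw [P, ← E_const_add]
  congr 1
  funext A
  rw [← E_const_add]

end Pool.Agent.U736.CE
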