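import Mathlib
import Pool.Agent.U736.CE.Tree

/-!
Lower bound for the mean height of the critical beta-splitting tree: the potential.
-/

set_option autoImplicit false

namespace Pool.Agent.U736.CE

open BinaryTree Finset Filter Topology Pool.Agent.R982.CBS

lemma H_diff_le {m n : ℕ} (h : m ≤ n) : H n - H m ≤ ((n : ℝ) - m) / ((m : ℝ) + 1) := by
  induction n, h using Nat.le_induction with
  | base => simp
  | succ n hmn ih =>
    rw [H_succ]
    have h1 : (1 : ℝ) / ((n : ℝ) + 1) ≤ 1 / ((m : ℝ) + 1) := by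
      apply one_div_le_one_div_of_le (by positivity)
      have : (m : ℝ) ≤ n := by exact_mod_cast hmn
      linarith
    push_cast
    have h2 : ((n : ℝ) + 1 - m) / ((m : ℝ) + 1) = ((n : ℝ) - m) / ((m : ℝ) + 1) + 1 / ((m : ℝ) + 1) := by
      ring
    rw [h2]
    linarith

lemma H_diff_ge' {m n K : ℕ} (h : m ≤ n) (hK : n ≤ K) : ((n : ℝ) - m) / K ≤ H n - H m := by
  induction n, h using Nat.le_induction with
  | base => simp
  | succ n hmn ih =>
    have ih' := ih (by omega)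
    rw [H_succ]
    have h1 : (1 : ℝ) / (K : ℝ) ≤ 1 / ((n : ℝ) + 1) := by
      apply one_div_le_one_div_of_le (by positivity)
      exact_mod_cast hK
    push_cast
    have h2 : ((n : ℝ) + 1 - m) / (K : ℝ) = ((n : ℝ) - m) / K + 1 / K := by ring
    rw [h2]
    linarith

/-- The jump of the harmonic number at a split. -/
noncomputable def xi (N i : ℕ) : ℝ := H N - H (max i (N - 1 - i))

lemma xi_nonneg {N i : ℕ} (hi : i < N) : 0 ≤ xi N i := by
  have := H_mono (show max i (N - 1 - i) ≤ N from max_le (by omega) (by omega))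
  unfold xi
  linarith

lemma xi_le {N i : ℕ} (hi : i < N) : xi N i ≤ 2 * ((i : ℝ) + 1) / ((N : ℝ) + 1) := by
  unfold xi
  have hiR : (i : ℝ) + 1 ≤ N := by exact_mod_cast hi
  have hi0 : (0 : ℝ) ≤ i := Nat.cast_nonneg _
  by_cases h : i ≤ N - 1 - i
  · rw [max_eq_right h]
    have h1 := H_diff_le (show N - 1 - i ≤ N by omega)
    have h2 : ((N - 1 - i : ℕ) : ℝ) = (N : ℝ) - 1 - i := by
      rw [Nat.cast_sub (by omega), Nat.cast_sub (by omega)]
      push_cast; ring
    rw [h2] at h1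
    refine h1.trans ?_
    have h3 : 2 * (i : ℝ) + 1 ≤ N := by
      have : 2 * i + 1 ≤ N := by omega
      exact_mod_cast this
    have h4 : (N : ℝ) - ((N : ℝ) - 1 - i) = i + 1 := by ring
    have h5 : (N : ℝ) - 1 - i + 1 = N - i := by ring
    rw [h4, h5, div_le_div_iff₀ (by linarith) (by positivity)]
    nlinarith
  · rw [max_eq_left (by omega)]
    have h1 := H_diff_le (show i ≤ N by omega)
    refine h1.trans ?_
    have h3 : (N : ℝ) ≤ 2 * i := by
      have : N ≤ 2 * i := by omega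
      exact_mod_cast this
    rw [div_le_div_iff₀ (by positivity) (by positivity)]
    nlinarith

lemma xi_le_one {N i : ℕ} (hi : i < N) : xi N i ≤ 1 := by
  unfold xi
  have hiR : (i : ℝ) + 1 ≤ N := by exact_mod_cast hi
  by_cases h : i ≤ N - 1 - i
  · rw [max_eq_right h]
    have h1 := H_diff_le (show N - 1 - i ≤ N by omega)
    have h2 : ((N - 1 - i : ℕ) : ℝ) = (N : ℝ) - 1 - i := by
      rw [Nat.cast_sub (by omega), Nat.cast_sub (by omega)]
      push_cast; ring
    rw [h2] at h1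
    refine h1.trans ?_
    have h3 : 2 * (i : ℝ) + 1 ≤ N := by
      have : 2 * i + 1 ≤ N := by omega
      exact_mod_cast this
    rw [div_le_one (by linarith)]
    linarith
  · rw [max_eq_left (by omega)]
    have h1 := H_diff_le (show i ≤ N by omega)
    refine h1.trans ?_
    have h3 : (N : ℝ) ≤ 2 * i := by
      have : N ≤ 2 * i := by omega
      exact_mod_cast this
    rw [div_le_one (by positivity)]
    linarith

lemma W_sum_sym {N : ℕ} (hN : 1 ≤ N) (X : ℕ → ℝ) (hX : ∀ i < N, X (N - 1 - i) = X i) :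
    ∑ i ∈ range N, W N i * X i = 1 / H N * ∑ i ∈ range N, 1 / ((i : ℝ) + 1) * X i := by
  have hH := H_pos hN
  have h1 : ∑ i ∈ range N, 1 / ((N : ℝ) - i) * X i = ∑ i ∈ range N, 1 / ((i : ℝ) + 1) * X i := by
    rw [← sum_range_reflect]
    refine sum_congr rfl fun i hi => ?_
    have hi' := mem_range.mp hi
    rw [hX i hi', Nat.cast_sub (by omega), Nat.cast_sub (by omega)]
    push_cast
    congr 2
    ring
  have h2 : ∑ i ∈ range N, W N i * X i = 1 / (2 * H N) *
      (∑ i ∈ range N, 1 / ((i : ℝ) + 1) * X i + ∑ i ∈ range N, 1 / ((N : ℝ) - i) * X i) := by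
    rw [← sum_add_distrib, mul_sum]
    refine sum_congr rfl fun i _ => ?_
    unfold W
    ring
  rw [h2, h1]
  field_simp
  ring

lemma xi_symm {N i : ℕ} (hi : i < N) : xi N (N - 1 - i) = xi N i := by
  unfold xi
  have h2 : N - 1 - (N - 1 - i) = i := by omega
  rw [h2, max_comm]

lemma sum_inv_sqrt (n : ℕ) : ∑ k ∈ range n, 1 / √((k : ℝ) + 1) ≤ 2 * √(n : ℝ) := by
  induction n with
  | zero => simp
  | succ n ih =>
    rw [sum_range_succ]
    push_cast
    have h0 : (0 : ℝ) ≤ n := Nat.cast_nonneg _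
    have h1 : 0 < √((n : ℝ) + 1) := Real.sqrt_pos.2 (by positivity)
    have h2 := Real.sqrt_nonneg (n : ℝ)
    have h3 := Real.sq_sqrt h0
    have h4 := Real.sq_sqrt (show (0 : ℝ) ≤ (n : ℝ) + 1 by positivity)
    have h5 : 1 / √((n : ℝ) + 1) ≤ 2 * √((n : ℝ) + 1) - 2 * √(n : ℝ) := by
      rw [div_le_iff₀ h1]
      nlinarith [sq_nonneg (√((n : ℝ) + 1) - √(n : ℝ))]
    linarith

lemma sqrt_xi {N : ℕ} (hN : 1 ≤ N) : ∑ i ∈ range N, W N i * √(xi N i) ≤ 3 / H N := by
  have hH := H_pos hN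
  rw [W_sum_sym hN (fun i => √(xi N i)) (fun i hi => by simp only [xi_symm hi])]
  have h1 : ∑ i ∈ range N, 1 / ((i : ℝ) + 1) * √(xi N i) ≤
      √(2 / ((N : ℝ) + 1)) * ∑ i ∈ range N, 1 / √((i : ℝ) + 1) := by
    rw [mul_sum]
    refine sum_le_sum fun i hi => ?_
    have hi' := mem_range.mp hi
    have h2 : √(xi N i) ≤ √(2 / ((N : ℝ) + 1)) * √((i : ℝ) + 1) := by
      rw [← Real.sqrt_mul (by positivity)]
      apply Real.sqrt_le_sqrt
      refine (xi_le hi').trans (le_of_eq ?_)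
      ring
    have h3 : 0 < √((i : ℝ) + 1) := Real.sqrt_pos.2 (by positivity)
    have h4 := Real.sq_sqrt (show (0 : ℝ) ≤ (i : ℝ) + 1 by positivity)
    calc 1 / ((i : ℝ) + 1) * √(xi N i) ≤
          1 / ((i : ℝ) + 1) * (√(2 / ((N : ℝ) + 1)) * √((i : ℝ) + 1)) :=
            mul_le_mul_of_nonneg_left h2 (by positivity)
      _ = √(2 / ((N : ℝ) + 1)) * (1 / √((i : ℝ) + 1)) := by
          have h5 : 1 / ((i : ℝ) + 1) * √((i : ℝ) + 1) = 1 / √((i : ℝ) + 1) := by
            rw [div_mul_eq_mul_div, one_mul, div_eq_div_iff (by positivity) h3.ne']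
            nlinarith
          rw [← h5]; ring
  have h2 : √(2 / ((N : ℝ) + 1)) * ∑ i ∈ range N, 1 / √((i : ℝ) + 1) ≤ 3 := by
    calc √(2 / ((N : ℝ) + 1)) * ∑ i ∈ range N, 1 / √((i : ℝ) + 1) ≤
          √(2 / ((N : ℝ) + 1)) * (2 * √(N : ℝ)) :=
            mul_le_mul_of_nonneg_left (sum_inv_sqrt N) (Real.sqrt_nonneg _)
      _ = 2 * √(2 / ((N : ℝ) + 1) * N) := by rw [Real.sqrt_mul (by positivity)]; ring
      _ ≤ 2 * √(2.25) := by
          gcongr
          rw [div_mul_eq_mul_div, div_le_iff₀ (by positivity)]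
          have : (0 : ℝ) ≤ N := Nat.cast_nonneg _
          linarith
      _ = 3 := by
          rw [show (2.25 : ℝ) = 1.5 ^ 2 by norm_num, Real.sqrt_sq (by norm_num)]; norm_num
  calc 1 / H N * ∑ i ∈ range N, 1 / ((i : ℝ) + 1) * √(xi N i) ≤ 1 / H N * 3 :=
        mul_le_mul_of_nonneg_left (h1.trans h2) (by positivity)
    _ = 3 / H N := by ring

/-- drift -/
noncomputable def sg (N : ℕ) : ℝ := H2 N - H2 (N / 2) / 2

lemma drift_xi {N : ℕ} (hN : 1 ≤ N) : ∑ i ∈ range N, W N i * xi N i = sg N / H N :=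
  chain_G.drift N hN

lemma sg_le_two (N : ℕ) : sg N ≤ 2 := by
  have h1 := H2_le_two N
  have h2 : 0 ≤ H2 (N / 2) := by rw [← H2_zero]; exact H2_mono (Nat.zero_le _)
  unfold sg
  linarith

lemma sg_ge {N : ℕ} (hN : 1 ≤ N) : 1 / 2 ≤ sg N := by
  have h1 := H2_mono (Nat.div_le_self N 2)
  have h2 := one_le_H2 hN
  unfold sg
  linarith

lemma sg_tendsto : Tendsto sg atTop (𝓝 (Real.pi ^ 2 / 12)) := by
  have h1 : Tendsto (fun N : ℕ => H2 (N / 2)) atTop (𝓝 (Real.pi ^ 2 / 6)) :=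
    H2_tendsto.comp (Nat.tendsto_div_const_atTop (by norm_num))
  have h2 := H2_tendsto.sub (h1.div_const 2)
  have h3 : Real.pi ^ 2 / 6 - Real.pi ^ 2 / 6 / 2 = Real.pi ^ 2 / 12 := by ring
  rw [h3] at h2
  exact h2

/-- facts on the window -/
lemma win {N i : ℕ} (hN : 100 ≤ N) (hi : i ∈ Ico (N / 2 - N / 20) (N / 2)) :
    i < N ∧ 2 / (H N * ((N : ℝ) + 1)) ≤ W N i ∧ 9 / 20 ≤ xi N i ∧
      |H i - H (N - 1 - i)| ≤ 2 / 9 := by
  rw [mem_Ico] at hi
  have hiN : i < N := by omega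
  have hH := H_pos (show 1 ≤ N by omega)
  have hmax : max i (N - 1 - i) = N - 1 - i := max_eq_right (by omega)
  have hc : ((N - 1 - i : ℕ) : ℝ) = (N : ℝ) - 1 - i := by
    rw [Nat.cast_sub (by omega), Nat.cast_sub (by omega)]
    push_cast; ring
  have hi1 : 9 * (N : ℝ) ≤ 20 * ((i : ℝ) + 1) := by
    have : 9 * N ≤ 20 * (i + 1) := by omega
    exact_mod_cast this
  have hN0 : (0 : ℝ) < N := by
    have : 0 < N := by omega
    exact_mod_cast this
  have hiR : (i : ℝ) + 1 ≤ N := by exact_mod_cast hiN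
  refine ⟨hiN, ?_, ?_, ?_⟩
  · unfold W
    have h1 : 4 / ((N : ℝ) + 1) ≤ 1 / ((i : ℝ) + 1) + 1 / ((N : ℝ) - i) := by
      have h5 : (0 : ℝ) < (N : ℝ) - i := by linarith
      have h6 : (0 : ℝ) < (i : ℝ) + 1 := by positivity
      rw [div_add_div _ _ h6.ne' h5.ne', div_le_div_iff₀ (by positivity) (by positivity)]
      nlinarith [sq_nonneg ((i : ℝ) + 1 - (N - i))]
    calc 2 / (H N * ((N : ℝ) + 1)) = 1 / (2 * H N) * (4 / ((N : ℝ) + 1)) := by
          field_simp; norm_num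
      _ ≤ _ := mul_le_mul_of_nonneg_left h1 (by positivity)
  · unfold xi
    rw [hmax]
    have h1 := H_diff_ge' (show N - 1 - i ≤ N by omega) (le_refl N)
    rw [hc] at h1
    refine le_trans ?_ h1
    rw [le_div_iff₀ hN0]
    linarith
  · have h0 : H i ≤ H (N - 1 - i) := H_mono (by omega)
    rw [abs_sub_comm, abs_of_nonneg (by linarith)]
    have h1 := H_diff_le (show i ≤ N - 1 - i by omega)
    refine h1.trans ?_
    rw [hc, div_le_iff₀ (by positivity)]
    have h2 : 10 * ((N : ℝ) - 1 - i - i) ≤ N := by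
      have : 10 * (N - 1 - i - i) ≤ N := by omega
      have h3 : (((N - 1 - i - i : ℕ)) : ℝ) = (N : ℝ) - 1 - i - i := by
        rw [Nat.cast_sub (by omega), hc]
      rw [← h3]
      exact_mod_cast this
    linarith

lemma win_sum {N : ℕ} (hN : 100 ≤ N) (X : ℕ → ℝ) (c : ℝ) (hc : 0 ≤ c)
    (hX0 : ∀ i < N, 0 ≤ X i) (hX : ∀ i ∈ Ico (N / 2 - N / 20) (N / 2), c ≤ X i) :
    3 / 40 * c / H N ≤ ∑ i ∈ range N, W N i * X i := by
  have hH := H_pos (show 1 ≤ N by omega)
  have hsub : Ico (N / 2 - N / 20) (N / 2) ⊆ range N := by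
    intro i hi
    exact mem_range.2 (win hN hi).1
  have h1 : ∑ i ∈ Ico (N / 2 - N / 20) (N / 2), W N i * X i ≤ ∑ i ∈ range N, W N i * X i :=
    sum_le_sum_of_subset_of_nonneg hsub fun i hi _ =>
      mul_nonneg (W_nonneg (mem_range.1 hi)) (hX0 i (mem_range.1 hi))
  have h2 : ∑ i ∈ Ico (N / 2 - N / 20) (N / 2), 2 / (H N * ((N : ℝ) + 1)) * c ≤
      ∑ i ∈ Ico (N / 2 - N / 20) (N / 2), W N i * X i := by
    refine sum_le_sum fun i hi => ?_
    have h3 := win hN hi
    exact mul_le_mul h3.2.1 (hX i hi) hc (W_nonneg h3.1)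
  rw [sum_const, Nat.card_Ico, nsmul_eq_mul] at h2
  have h4 : N / 2 - (N / 2 - N / 20) = N / 20 := by omega
  rw [h4] at h2
  refine le_trans ?_ (h2.trans h1)
  have h5 : (N : ℝ) / 25 ≤ ((N / 20 : ℕ) : ℝ) := by
    have : N ≤ 25 * (N / 20) := by omega
    have h6 : (N : ℝ) ≤ 25 * ((N / 20 : ℕ) : ℝ) := by exact_mod_cast this
    linarith
  have hNR : (100 : ℝ) ≤ N := by exact_mod_cast hN
  have h7 : 0 ≤ 2 / (H N * ((N : ℝ) + 1)) * c := by positivity
  calc 3 / 40 * c / H N ≤ (N : ℝ) / 25 * (2 / (H N * ((N : ℝ) + 1)) * c) := by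
        have e : (N : ℝ) / 25 * (2 / (H N * ((N : ℝ) + 1)) * c) =
          (2 / 25 * ((N : ℝ) / ((N : ℝ) + 1))) * c / H N := by field_simp
        rw [e]
        have h8 : (15 / 16 : ℝ) ≤ (N : ℝ) / ((N : ℝ) + 1) := by
          rw [le_div_iff₀ (by positivity)]; linarith
        gcongr
        linarith
    _ ≤ _ := mul_le_mul_of_nonneg_right h5 h7

lemma big_xi {N : ℕ} (hN : 100 ≤ N) :
    1 / 100 / H N ≤ ∑ i ∈ range N, W N i * max 0 (xi N i - 1 / 4) := by
  have h := win_sum hN (fun i => max 0 (xi N i - 1 / 4)) (1 / 5) (by norm_num)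
    (fun i _ => le_max_left _ _) (fun i hi => by
      have := (win hN hi).2.2.1
      exact le_trans (by linarith) (le_max_right _ _))
  have hH := H_pos (show 1 ≤ N by omega)
  refine le_trans ?_ h
  gcongr
  norm_num

/-- the bump -/
noncomputable def g (u : ℝ) : ℝ := max 0 (1 / 4 - |u|)

lemma g_nonneg (u : ℝ) : 0 ≤ g u := le_max_left _ _
lemma g_le (u : ℝ) : g u ≤ 1 / 4 := max_le (by norm_num) (by have := abs_nonneg u; linarith)
lemma g_lip (u v : ℝ) : g u - |u - v| ≤ g v := by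
  unfold g
  have h1 := abs_sub_abs_le_abs_sub v u
  rw [abs_sub_comm v u] at h1
  rcases le_total 0 (1 / 4 - |u|) with h | h
  · rw [max_eq_right h]
    exact le_trans (by linarith) (le_max_right _ _)
  · rw [max_eq_left h]
    exact le_trans (by have := abs_nonneg (u - v); linarith) (le_max_left _ _)
lemma g_neg (u : ℝ) : g (-u) = g u := by unfold g; rw [abs_neg]

lemma gam {N : ℕ} (hN : 100 ≤ N) {x0 : ℝ} (hx0 : 2 * (x0 + 1) ≤ H N) :
    1 / 1000 ≤ ∑ i ∈ range N, W N i *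
      (max 0 (H (max i (N - 1 - i)) - x0) * g (H i - H (N - 1 - i))) := by
  have hH := H_pos (show 1 ≤ N by omega)
  have h := win_sum hN (fun i => max 0 (H (max i (N - 1 - i)) - x0) * g (H i - H (N - 1 - i)))
    (H N / 2 * (1 / 36)) (by positivity)
    (fun i _ => mul_nonneg (le_max_left _ _) (g_nonneg _)) (fun i hi => by
      obtain ⟨h1, _, _, h4⟩ := win hN hi
      have h5 := xi_le_one h1
      unfold xi at h5
      refine mul_le_mul (le_trans (by linarith) (le_max_right _ _)) ?_ (by norm_num)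
        (le_max_left _ _)
      unfold g
      exact le_trans (by linarith) (le_max_right _ _))
  refine le_trans ?_ h
  have e : 3 / 40 * (H N / 2 * (1 / 36)) / H N = 3 / 2880 := by field_simp; norm_num
  rw [e]
  norm_num

end Pool.Agent.U736.CE
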