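import Mathlib
import Pool.Agent.U736.CE.Tree

/-!
Upper bound for the mean height of the critical beta-splitting tree.
-/

set_option autoImplicit false

namespace Pool.Agent.U736.CE

open BinaryTree Finset Filter Topology Pool.Agent.R982.CBS

/-- exponential moment -/
noncomputable def Z (ρ : ℝ) (N : ℕ) : ℝ := E N (fun t => ρ ^ (maxDepth t) - 1)

lemma Z_zero (ρ : ℝ) : Z ρ 0 = 0 := by simp [Z, E, maxDepth_nil]

lemma Z_rec {ρ : ℝ} (hρ : 1 ≤ ρ) {N : ℕ} (hN : 1 ≤ N) :
    Z ρ N ≤ (ρ - 1) + ρ * (2 * ∑ i ∈ range N, W N i * Z ρ i) := by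
  have h1 : ∀ i ∈ range N, W N i * E i (fun l => E (N - 1 - i)
      (fun r => ρ ^ (maxDepth (.node () l r)) - 1)) ≤
      W N i * ((ρ - 1) + ρ * (Z ρ i + Z ρ (N - 1 - i))) := by
    intro i hi
    refine mul_le_mul_of_nonneg_left ?_ (W_nonneg (mem_range.mp hi))
    have h2 : (ρ - 1) + ρ * (Z ρ i + Z ρ (N - 1 - i)) =
        E i (fun l => E (N - 1 - i) (fun r =>
          (ρ - 1) + ρ * ((ρ ^ (maxDepth l) - 1) + (ρ ^ (maxDepth r) - 1)))) := by
      have h3 : ∀ l, E (N - 1 - i) (fun r =>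
          (ρ - 1) + ρ * ((ρ ^ (maxDepth l) - 1) + (ρ ^ (maxDepth r) - 1))) =
          (ρ - 1) + ρ * ((ρ ^ (maxDepth l) - 1) + Z ρ (N - 1 - i)) := by
        intro l
        rw [E_const_add, E_mul, E_const_add, Z]
      simp only [h3]
      rw [E_const_add, E_mul, E_add i (fun l => ρ ^ maxDepth l - 1) (fun _ => Z ρ (N - 1 - i)),
        E_const, Z]
    rw [h2]
    refine E_mono fun l => E_mono fun r => ?_
    rw [maxDepth_node, pow_add, pow_one]
    have hl : 1 ≤ ρ ^ maxDepth l := one_le_pow₀ hρ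
    have hr : 1 ≤ ρ ^ maxDepth r := one_le_pow₀ hρ
    have h4 : ρ ^ max (maxDepth l) (maxDepth r) ≤ ρ ^ maxDepth l + ρ ^ maxDepth r - 1 := by
      rcases le_total (maxDepth l) (maxDepth r) with h | h
      · rw [max_eq_right h]; linarith
      · rw [max_eq_left h]; linarith
    nlinarith
  rw [Z, step_eq hN]
  refine (sum_le_sum h1).trans (le_of_eq ?_)
  have h5 : ∑ i ∈ range N, W N i * Z ρ (N - 1 - i) = ∑ i ∈ range N, W N i * Z ρ i := by
    rw [← sum_range_reflect]
    refine sum_congr rfl fun i hi => ?_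
    have hi' := mem_range.mp hi
    have h2 : N - 1 - (N - 1 - i) = i := by omega
    rw [h2, W_symm hi']
  have h6 : ∑ i ∈ range N, W N i * ((ρ - 1) + ρ * (Z ρ i + Z ρ (N - 1 - i))) =
      (ρ - 1) * ∑ i ∈ range N, W N i + ρ * (∑ i ∈ range N, W N i * Z ρ i +
        ∑ i ∈ range N, W N i * Z ρ (N - 1 - i)) := by
    rw [← sum_add_distrib, mul_sum, mul_sum, ← sum_add_distrib]
    exact sum_congr rfl fun i _ => by ring
  rw [h6, h5, W_sum N hN]
  ring

lemma S1 (N : ℕ) : ∑ i ∈ range N, (i : ℝ) ^ 2 / ((i : ℝ) + 1) =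
    (N : ℝ) ^ 2 / 2 - 3 * N / 2 + H N := by
  induction N with
  | zero => simp [H_zero]
  | succ N ih =>
    rw [sum_range_succ, ih, H_succ]
    have : (N : ℝ) + 1 ≠ 0 := by positivity
    push_cast
    field_simp
    ring

lemma S2aux (M : ℝ) (N : ℕ) : ∑ i ∈ range N, (M - 1 - (i : ℝ)) ^ 2 / ((i : ℝ) + 1) =
    M ^ 2 * H N - 2 * M * N + N * (N + 1) / 2 := by
  induction N with
  | zero => simp [H_zero]
  | succ N ih =>
    rw [sum_range_succ, ih, H_succ]
    have : (N : ℝ) + 1 ≠ 0 := by positivity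
    push_cast
    field_simp
    ring

lemma S2 (N : ℕ) : ∑ i ∈ range N, (i : ℝ) ^ 2 / ((N : ℝ) - i) =
    (N : ℝ) ^ 2 * H N - 2 * (N : ℝ) ^ 2 + N * (N + 1) / 2 := by
  rw [← sum_range_reflect]
  have h := S2aux N N
  rw [show 2 * (N : ℝ) * N = 2 * (N : ℝ) ^ 2 by ring] at h
  rw [← h]
  refine sum_congr rfl fun i hi => ?_
  have hi' := mem_range.mp hi
  rw [Nat.cast_sub (by omega), Nat.cast_sub (by omega)]
  push_cast
  congr 1
  ring

lemma W_sq {N : ℕ} (hN : 1 ≤ N) : 2 * ∑ i ∈ range N, W N i * (i : ℝ) ^ 2 ≤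
    (N : ℝ) ^ 2 * (1 - 1 / H N) := by
  have hH := H_pos hN
  have h1 : 2 * ∑ i ∈ range N, W N i * (i : ℝ) ^ 2 =
      1 / H N * (∑ i ∈ range N, (i : ℝ) ^ 2 / ((i : ℝ) + 1) +
        ∑ i ∈ range N, (i : ℝ) ^ 2 / ((N : ℝ) - i)) := by
    rw [← sum_add_distrib, mul_sum, mul_sum]
    refine sum_congr rfl fun i hi => ?_
    have h5 : (0 : ℝ) < (N : ℝ) - i := by
      have : (i : ℝ) < N := by exact_mod_cast mem_range.mp hi
      linarith
    unfold W
    field_simp
  have h2 : H N ≤ N := by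
    unfold H
    calc ∑ i ∈ range N, 1 / ((i : ℝ) + 1) ≤ ∑ i ∈ range N, (1 : ℝ) := by
          refine sum_le_sum fun i _ => ?_
          rw [div_le_one (by positivity)]
          have : (0 : ℝ) ≤ i := Nat.cast_nonneg _
          linarith
      _ = N := by simp
  rw [h1, S1, S2]
  have h3 : (N : ℝ) ^ 2 * (1 - 1 / H N) = 1 / H N * ((N : ℝ) ^ 2 * H N - (N : ℝ) ^ 2) := by
    field_simp
  rw [h3]
  refine mul_le_mul_of_nonneg_left ?_ (by positivity)
  nlinarith

lemma Z_le (M : ℕ) (hM : 1 ≤ M) : ∀ N ≤ M, Z (1 + 1 / (2 * H M)) N ≤ (N : ℝ) ^ 2 := by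
  have hHM := H_pos hM
  have hρ : (1 : ℝ) ≤ 1 + 1 / (2 * H M) := by
    have : 0 ≤ 1 / (2 * H M) := by positivity
    linarith
  intro N
  induction N using Nat.strong_induction_on with
  | _ N ih =>
    intro hNM
    rcases Nat.eq_zero_or_pos N with h0 | hN
    · subst h0; rw [Z_zero]; simp
    · refine (Z_rec hρ hN).trans ?_
      have hH := H_pos hN
      have h1 : ∑ i ∈ range N, W N i * Z (1 + 1 / (2 * H M)) i ≤
          ∑ i ∈ range N, W N i * (i : ℝ) ^ 2 := by
        refine sum_le_sum fun i hi => mul_le_mul_of_nonneg_left ?_ (W_nonneg (mem_range.mp hi))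
        exact ih i (mem_range.mp hi) (by have := mem_range.mp hi; omega)
      have h2 := W_sq hN
      have h3 : 1 / (2 * H M) ≤ 1 / (2 * H N) := by
        apply one_div_le_one_div_of_le (by positivity)
        have := H_mono hNM
        linarith
      have hH1 := H_one_le hN
      have h4 : (0 : ℝ) ≤ 1 - 1 / H N := by
        rw [sub_nonneg, div_le_one hH]; exact hH1
      have hN1 : (1 : ℝ) ≤ (N : ℝ) ^ 2 := by
        have : (1 : ℝ) ≤ N := by exact_mod_cast hN
        nlinarith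
      have h5 : (1 + 1 / (2 * H M)) * (2 * ∑ i ∈ range N, W N i * Z (1 + 1 / (2 * H M)) i) ≤
          (1 + 1 / (2 * H N)) * ((N : ℝ) ^ 2 * (1 - 1 / H N)) := by
        calc (1 + 1 / (2 * H M)) * (2 * ∑ i ∈ range N, W N i * Z (1 + 1 / (2 * H M)) i)
            ≤ (1 + 1 / (2 * H M)) * ((N : ℝ) ^ 2 * (1 - 1 / H N)) :=
              mul_le_mul_of_nonneg_left (by linarith) (by linarith)
          _ ≤ _ := mul_le_mul_of_nonneg_right (by linarith) (by positivity)
      have h6 : (1 + 1 / (2 * H N)) * ((N : ℝ) ^ 2 * (1 - 1 / H N)) =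
          (N : ℝ) ^ 2 - (N : ℝ) ^ 2 * (1 / (2 * H N)) - (N : ℝ) ^ 2 * (1 / (2 * H N ^ 2)) := by
        field_simp
        ring
      have h7 : 1 / (2 * H N) ≤ (N : ℝ) ^ 2 * (1 / (2 * H N)) := by
        have : 0 ≤ 1 / (2 * H N) := by positivity
        nlinarith
      have h8 : 0 ≤ (N : ℝ) ^ 2 * (1 / (2 * H N ^ 2)) := by positivity
      linarith

/-- Upper bound for the mean height. -/
theorem f_le (N : ℕ) (hN : 1 ≤ N) : f N ≤ (2 * H N + 1) * Real.log (1 + (N : ℝ) ^ 2) := by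
  have hH := H_pos hN
  set ρ : ℝ := 1 + 1 / (2 * H N) with hρ
  have hρ0 : 0 < ρ := by positivity
  have hZ := Z_le N hN N le_rfl
  set c : ℝ := 1 + (N : ℝ) ^ 2 with hc
  have hc0 : 0 < c := by positivity
  have h1 : c * (1 - Real.log c) + c * Real.log ρ * f N ≤ 1 + Z ρ N := by
    have e1 : c * (1 - Real.log c) + c * Real.log ρ * f N =
        E N (fun t => c * (1 - Real.log c) + c * Real.log ρ * (maxDepth t : ℝ)) := by
      rw [E_const_add, E_mul, f]
    have e2 : 1 + Z ρ N = E N (fun t => 1 + (ρ ^ (maxDepth t) - 1)) := by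
      rw [E_const_add, Z]
    rw [e1, e2]
    refine E_mono fun t => ?_
    have h2 := Real.add_one_le_exp ((maxDepth t : ℝ) * Real.log ρ - Real.log c)
    rw [Real.exp_sub, Real.exp_log hc0, mul_comm (maxDepth t : ℝ) (Real.log ρ),
      Real.exp_mul, Real.exp_log hρ0, Real.rpow_natCast] at h2
    have h3 : c * (Real.log ρ * (maxDepth t : ℝ) - Real.log c + 1) ≤ ρ ^ maxDepth t := by
      rw [le_div_iff₀ hc0] at h2
      linarith
    nlinarith
  have h4 : c * Real.log ρ * f N ≤ c * Real.log c := by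
    have : 1 + Z ρ N ≤ c := by rw [hc]; linarith
    nlinarith
  have h5 : Real.log ρ * f N ≤ Real.log c := by
    have : c * (Real.log ρ * f N) ≤ c * Real.log c := by linarith
    exact le_of_mul_le_mul_left this hc0
  have h6 : 1 / (2 * H N + 1) ≤ Real.log ρ := by
    have h7 := Real.one_sub_inv_le_log_of_pos hρ0
    refine le_trans (le_of_eq ?_) h7
    rw [hρ]
    field_simp
    ring
  have h8 : 0 ≤ f N := by
    have : (0 : ℝ) = E N (fun _ => 0) := by rw [E_const]
    rw [this]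
    exact E_mono fun t => Nat.cast_nonneg _
  have h9 : 1 / (2 * H N + 1) * f N ≤ Real.log c :=
    (mul_le_mul_of_nonneg_right h6 h8).trans h5
  rw [div_mul_eq_mul_div, one_mul, div_le_iff₀ (by positivity)] at h9
  linarith

end Pool.Agent.U736.CE
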