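import Mathlib
import Pool.Agent.U736.CE.Low
import Pool.Agent.U736.CE.Up

/-!
The order of the difference between the height and the greedy path.
-/

set_option autoImplicit false

namespace Pool.Agent.U736.CE

open BinaryTree Finset Filter Topology Pool.Agent.R982.CBS

/-- The potential of a pair of clades. -/
noncomputable def Psi (a C b x0 : ℝ) (i j : ℕ) : ℝ :=
  a * H (max i j) ^ 2 - C * H (max i j) + b * (max 0 (H (max i j) - x0) * g (H i - H j))

lemma Psi_comm (a C b x0 : ℝ) (i j : ℕ) : Psi a C b x0 i j = Psi a C b x0 j i := by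
  unfold Psi
  rw [max_comm, ← neg_sub (H j) (H i), g_neg]

lemma H_max (i j : ℕ) : H (max i j) = max (H i) (H j) := by
  rcases le_total i j with h | h
  · rw [max_eq_right h, max_eq_right (H_mono h)]
  · rw [max_eq_left h, max_eq_left (H_mono h)]

/-- the pointwise inequality -/
lemma pointwise {a C b x0 x y ξ η : ℝ} (ha : 0 ≤ a) (hC : 0 ≤ C) (hb : 0 ≤ b)
    (hx0 : x0 ≤ x) (hx : 0 ≤ x) (hξ : 0 ≤ ξ) (hη : 0 ≤ η) (hyx : y ≤ x) :
    a * x ^ 2 - C * x + b * ((x - x0) * g (x - y)) -
      (2 * a * x + b / 4) * (min ξ (x - y) + √ξ * √η) - b * (x - x0) * (ξ + η) ≤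
    a * max (x - ξ) (y - η) ^ 2 - C * max (x - ξ) (y - η) +
      b * (max 0 (max (x - ξ) (y - η) - x0) * g (x - ξ - (y - η))) := by
  set M := max (x - ξ) (y - η) with hM
  set δ := x - M with hδ
  have hMx : M = x - δ := by rw [hδ]; ring
  have hδ0 : 0 ≤ δ := by
    have : M ≤ x := max_le (by linarith) (by linarith)
    rw [hδ]; linarith
  have hmin : min ξ η ≤ √ξ * √η := by
    rw [← Real.sqrt_mul hξ]
    apply Real.le_sqrt_of_sq_le
    rcases le_total ξ η with h | h
    · rw [min_eq_left h]; nlinarith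
    · rw [min_eq_right h]; nlinarith
  have hδ1 : δ ≤ min ξ (x - y) + √ξ * √η := by
    have h1 : x - ξ ≤ M := le_max_left _ _
    have h2 : y - η ≤ M := le_max_right _ _
    have h3 : δ ≤ ξ := by rw [hδ]; linarith
    have h4 : δ ≤ x - y + η := by rw [hδ]; linarith
    have h5 := mul_nonneg (Real.sqrt_nonneg ξ) (Real.sqrt_nonneg η)
    rcases le_total ξ (x - y) with h | h
    · rw [min_eq_left h]; linarith
    · rw [min_eq_right h]
      rcases le_total ξ η with h' | h'
      · rw [min_eq_left h'] at hmin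
        linarith
      · rw [min_eq_right h'] at hmin
        linarith
  have hg1 := g_lip (x - y) (x - ξ - (y - η))
  have habs : |x - y - (x - ξ - (y - η))| ≤ ξ + η := by
    rw [abs_le]; constructor <;> linarith
  have hg2 := g_nonneg (x - ξ - (y - η))
  have hg3 := g_le (x - ξ - (y - η))
  set G := g (x - ξ - (y - η)) with hG
  have e1 : a * x ^ 2 - 2 * a * x * δ ≤ a * M ^ 2 := by
    rw [hMx]
    nlinarith [mul_nonneg ha (sq_nonneg δ)]
  have e2 : -C * x ≤ -C * M := by
    rw [hMx]
    nlinarith [mul_nonneg hC hδ0]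
  have e3 : b * ((x - x0 - δ) * G) ≤ b * (max 0 (M - x0) * G) := by
    apply mul_le_mul_of_nonneg_left _ hb
    apply mul_le_mul_of_nonneg_right _ hg2
    refine le_trans (le_of_eq ?_) (le_max_right _ _)
    rw [hMx]; ring
  have e4 : (x - x0) * g (x - y) - (x - x0) * (ξ + η) ≤ (x - x0) * G := by
    have : (x - x0) * (g (x - y) - (ξ + η)) ≤ (x - x0) * G :=
      mul_le_mul_of_nonneg_left (by linarith) (by linarith)
    linarith
  have e5 : δ * G ≤ δ * (1 / 4) := mul_le_mul_of_nonneg_left hg3 hδ0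
  have e6 : (2 * a * x + b / 4) * δ ≤ (2 * a * x + b / 4) * (min ξ (x - y) + √ξ * √η) :=
    mul_le_mul_of_nonneg_left hδ1 (by positivity)
  have e7 : b * ((x - x0) * g (x - y)) - b * (x - x0) * (ξ + η) - b / 4 * δ ≤
      b * ((x - x0 - δ) * G) := by
    have h8 : b * ((x - x0) * g (x - y) - (x - x0) * (ξ + η) - δ * (1 / 4)) ≤
        b * ((x - x0 - δ) * G) := by
      apply mul_le_mul_of_nonneg_left _ hb
      have : (x - x0 - δ) * G = (x - x0) * G - δ * G := by ring
      rw [this]
      linarith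
    linarith
  linarith

/-- sums over two splits -/
lemma dsum {i j : ℕ} (hi : 1 ≤ i) (hj : 1 ≤ j) (c d e : ℝ) (X1 X2 : ℕ → ℝ) (Y1 Y2 : ℕ → ℝ)
    (X3 : ℕ → ℝ) :
    ∑ k ∈ range i, W i k * ∑ l ∈ range j, W j l *
      (1 + (c - d * (X1 k + X2 k * Y2 l) - e * (X3 k + Y1 l))) =
    1 + (c - d * (∑ k ∈ range i, W i k * X1 k +
      (∑ k ∈ range i, W i k * X2 k) * (∑ l ∈ range j, W j l * Y2 l)) -
      e * (∑ k ∈ range i, W i k * X3 k + ∑ l ∈ range j, W j l * Y1 l)) := by
  have h1 : ∀ k, ∑ l ∈ range j, W j l *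
      (1 + (c - d * (X1 k + X2 k * Y2 l) - e * (X3 k + Y1 l))) =
      1 + (c - d * (X1 k + X2 k * (∑ l ∈ range j, W j l * Y2 l)) -
        e * (X3 k + ∑ l ∈ range j, W j l * Y1 l)) := by
    intro k
    have h2 : ∑ l ∈ range j, W j l *
      (1 + (c - d * (X1 k + X2 k * Y2 l) - e * (X3 k + Y1 l))) =
      (1 + (c - d * X1 k - e * X3 k)) * ∑ l ∈ range j, W j l -
        d * X2 k * ∑ l ∈ range j, W j l * Y2 l - e * ∑ l ∈ range j, W j l * Y1 l := by
      rw [mul_sum, mul_sum, mul_sum, ← sum_sub_distrib, ← sum_sub_distrib]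
      exact sum_congr rfl fun l _ => by ring
    rw [h2, W_sum j hj]
    ring
  simp only [h1]
  clear h1
  generalize ∑ l ∈ range j, W j l * Y2 l = A
  generalize ∑ l ∈ range j, W j l * Y1 l = B
  have h3 : ∑ k ∈ range i, W i k * (1 + (c - d * (X1 k + X2 k * A) - e * (X3 k + B))) =
      (1 + (c - e * B)) * ∑ k ∈ range i, W i k - d * (∑ k ∈ range i, W i k * X1 k) -
        d * A * (∑ k ∈ range i, W i k * X2 k) - e * (∑ k ∈ range i, W i k * X3 k) := by
    rw [mul_sum, mul_sum, mul_sum, mul_sum, ← sum_sub_distrib, ← sum_sub_distrib,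
      ← sum_sub_distrib]
    exact sum_congr rfl fun l _ => by ring
  rw [h3, W_sum i hi]
  ring

/-- the step for pairs -/
lemma pair_step {a C b x0 : ℝ} (ha : 0 ≤ a) (hC : 0 ≤ C) (hb : 0 ≤ b) {i j : ℕ} (hj : 1 ≤ j)
    (hji : j ≤ i) (hi100 : 100 ≤ i) (hx0 : x0 < H i) (hx00 : 0 ≤ x0) (hu : H i - H j ≤ 1 / 4)
    (hy : 3600 ≤ H j) (hcon : 2 * a * (sg i - 1 / 100 + 1 / 400) + 6 * b ≤ 1) :
    Psi a C b x0 i j ≤ ∑ k ∈ range i, W i k * ∑ l ∈ range j, W j l *
      (1 + Psi a C b x0 (max k (i - 1 - k)) (max l (j - 1 - l))) := by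
  have hi : 1 ≤ i := by omega
  have hHi := H_pos hi
  have hHj := H_pos hj
  have hHji := H_mono hji
  set x := H i with hx
  set y := H j with hy'
  have hP : ∀ k ∈ range i, ∀ l ∈ range j,
      (a * x ^ 2 - C * x + b * ((x - x0) * g (x - y))) -
        (2 * a * x + b / 4) * (min (xi i k) (x - y) + √(xi i k) * √(xi j l)) -
        b * (x - x0) * (xi i k + xi j l) ≤
      Psi a C b x0 (max k (i - 1 - k)) (max l (j - 1 - l)) := by
    intro k hk l hl
    have h1 := xi_nonneg (mem_range.1 hk)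
    have h2 := xi_nonneg (mem_range.1 hl)
    have h3 := pointwise (a := a) (C := C) (b := b) (x0 := x0) (x := x) (y := y) ha hC hb
      hx0.le hHi.le h1 h2 hHji
    refine h3.trans (le_of_eq ?_)
    have e1 : x - xi i k = H (max k (i - 1 - k)) := by unfold xi; rw [← hx]; ring
    have e2 : y - xi j l = H (max l (j - 1 - l)) := by unfold xi; rw [← hy']; ring
    rw [e1, e2, ← H_max]
    rfl
  have hPsi : Psi a C b x0 i j = a * x ^ 2 - C * x + b * ((x - x0) * g (x - y)) := by
    unfold Psi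
    rw [max_eq_left hji, ← hx, ← hy', max_eq_right (by linarith)]
  have hsum : ∑ k ∈ range i, W i k * ∑ l ∈ range j, W j l *
      (1 + ((a * x ^ 2 - C * x + b * ((x - x0) * g (x - y))) -
        (2 * a * x + b / 4) * (min (xi i k) (x - y) + √(xi i k) * √(xi j l)) -
        b * (x - x0) * (xi i k + xi j l))) ≤
      ∑ k ∈ range i, W i k * ∑ l ∈ range j, W j l *
      (1 + Psi a C b x0 (max k (i - 1 - k)) (max l (j - 1 - l))) := by
    refine sum_le_sum fun k hk => mul_le_mul_of_nonneg_left ?_ (W_nonneg (mem_range.1 hk))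
    refine sum_le_sum fun l hl => mul_le_mul_of_nonneg_left ?_ (W_nonneg (mem_range.1 hl))
    exact add_le_add_right (hP k hk l hl) _
  refine le_trans ?_ hsum
  rw [dsum hi hj _ _ _ (fun k => min (xi i k) (x - y)) (fun k => √(xi i k)) (fun l => xi j l)
    (fun l => √(xi j l)) (fun k => xi i k), hPsi]
  have hmin : ∑ k ∈ range i, W i k * min (xi i k) (x - y) ≤ (sg i - 1 / 100) / x := by
    have h1 : ∑ k ∈ range i, W i k * min (xi i k) (x - y) ≤
        ∑ k ∈ range i, (W i k * xi i k - W i k * max 0 (xi i k - 1 / 4)) := by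
      refine sum_le_sum fun k hk => ?_
      rw [← mul_sub]
      refine mul_le_mul_of_nonneg_left ?_ (W_nonneg (mem_range.1 hk))
      rcases le_total (xi i k) (1 / 4) with h | h
      · rw [max_eq_left (by linarith)]
        exact (min_le_left _ _).trans (by linarith)
      · rw [max_eq_right (by linarith)]
        exact (min_le_right _ _).trans (by linarith)
    refine h1.trans ?_
    rw [sum_sub_distrib, drift_xi hi]
    have h2 := big_xi hi100
    rw [← hx] at h2 ⊢
    have h3 : (sg i - 1 / 100) / x = sg i / x - 1 / 100 / x := by ring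
    rw [h3]
    linarith
  have hsq1 := sqrt_xi hi
  have hsq2 := sqrt_xi hj
  rw [← hx] at hsq1
  rw [← hy'] at hsq2
  have hsq : (∑ k ∈ range i, W i k * √(xi i k)) * (∑ l ∈ range j, W j l * √(xi j l)) ≤
      1 / 400 / x := by
    calc (∑ k ∈ range i, W i k * √(xi i k)) * (∑ l ∈ range j, W j l * √(xi j l)) ≤
          3 / x * (3 / y) := by
            refine mul_le_mul hsq1 hsq2 ?_ (by positivity)
            exact sum_nonneg fun l hl => mul_nonneg (W_nonneg (mem_range.1 hl)) (Real.sqrt_nonneg _)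
      _ = 9 / y / x := by field_simp; norm_num
      _ ≤ 1 / 400 / x := by
            refine div_le_div_of_nonneg_right ?_ hHi.le
            rw [div_le_div_iff₀ hHj (by norm_num)]
            linarith
  have hdi := drift_xi hi
  have hdj := drift_xi hj
  rw [← hx] at hdi
  rw [← hy'] at hdj
  have hsgi := sg_le_two i
  have hsgj := sg_le_two j
  have hsgi0 := sg_ge hi
  have hA : (2 * a * x + b / 4) * (∑ k ∈ range i, W i k * min (xi i k) (x - y) +
      (∑ k ∈ range i, W i k * √(xi i k)) * (∑ l ∈ range j, W j l * √(xi j l))) ≤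
      2 * a * (sg i - 1 / 100 + 1 / 400) + b := by
    calc _ ≤ (2 * a * x + b / 4) * ((sg i - 1 / 100) / x + 1 / 400 / x) :=
          mul_le_mul_of_nonneg_left (add_le_add hmin hsq) (by positivity)
      _ = 2 * a * (sg i - 1 / 100 + 1 / 400) + b / 4 * ((sg i - 1 / 100 + 1 / 400) / x) := by
          field_simp
      _ ≤ 2 * a * (sg i - 1 / 100 + 1 / 400) + b / 4 * 4 := by
          have : (sg i - 1 / 100 + 1 / 400) / x ≤ 4 := by
            rw [div_le_iff₀ hHi]; nlinarith
          gcongr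
      _ = _ := by ring
  have hB : b * (x - x0) * (∑ k ∈ range i, W i k * xi i k + ∑ l ∈ range j, W j l * xi j l) ≤
      5 * b := by
    rw [hdi, hdj]
    have h1 : (x - x0) * (sg i / x + sg j / y) ≤ 5 := by
      have h2 : sg i / x + sg j / y ≤ 2 / x + 2 / y := by gcongr
      have h3 : (x - x0) * (sg i / x + sg j / y) ≤ x * (2 / x + 2 / y) := by
        have h4 : 0 ≤ 2 / x + 2 / y := by positivity
        calc (x - x0) * (sg i / x + sg j / y) ≤ (x - x0) * (2 / x + 2 / y) :=
              mul_le_mul_of_nonneg_left h2 (by linarith)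
          _ ≤ x * (2 / x + 2 / y) := mul_le_mul_of_nonneg_right (by linarith) h4
      refine h3.trans ?_
      have h5 : x * (2 / x + 2 / y) = 2 + 2 * (x / y) := by field_simp
      rw [h5]
      have h6 : x / y ≤ 3 / 2 := by rw [div_le_iff₀ hHj]; linarith
      linarith
    calc _ = b * ((x - x0) * (sg i / x + sg j / y)) := by ring
      _ ≤ b * 5 := mul_le_mul_of_nonneg_left h1 hb
      _ = 5 * b := by ring
  linarith

/-- the step for single clades -/
lemma single_step {a C b x0 : ℝ} {N : ℕ} (hN : 1 ≤ N) (ha : 0 ≤ a)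
    (hcon : 2 * a * sg N ≤ 1 + C * sg N / H N +
      b * ∑ i ∈ range N, W N i *
      (max 0 (H (max i (N - 1 - i)) - x0) * g (H i - H (N - 1 - i)))) :
    a * H N ^ 2 - C * H N ≤ 1 + ∑ i ∈ range N, W N i * Psi a C b x0 i (N - 1 - i) := by
  have h1 := chain_G.sum_F a (-C) N hN
  have hH := H_pos hN
  have h2 : ∑ i ∈ range N, W N i * Psi a C b x0 i (N - 1 - i) =
      ∑ i ∈ range N, W N i * (a * H (max i (N - 1 - i)) ^ 2 + (-C) * H (max i (N - 1 - i))) +
      b * ∑ i ∈ range N, W N i *
      (max 0 (H (max i (N - 1 - i)) - x0) * g (H i - H (N - 1 - i))) := by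
    rw [mul_sum, ← sum_add_distrib]
    refine sum_congr rfl fun i _ => ?_
    unfold Psi
    ring
  rw [h2, h1]
  have h3 : 0 ≤ a * (∑ i ∈ range N, 1 / ((i : ℝ) + 1) * (H N - H (max i (N - 1 - i))) ^ 2) / H N := by
    have : 0 ≤ ∑ i ∈ range N, 1 / ((i : ℝ) + 1) * (H N - H (max i (N - 1 - i))) ^ 2 :=
      sum_nonneg fun i _ => by positivity
    positivity
  have h4 : sg N = H2 N - H2 (N / 2) / 2 := rfl
  rw [← h4]
  have h5 : -C * sg N / H N = -(C * sg N / H N) := by ring
  rw [h5]
  linarith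

/-- The induction. -/
lemma induct {a C b x0 : ℝ} (hx0 : 1 ≤ x0)
    (h1 : ∀ N, 1 ≤ N → a * H N ^ 2 - C * H N ≤
      1 + ∑ i ∈ range N, W N i * Psi a C b x0 i (N - 1 - i))
    (h2 : ∀ i j : ℕ, 1 ≤ j → j ≤ i → x0 < H i → H i - H j ≤ 1 / 4 →
      Psi a C b x0 i j ≤ ∑ k ∈ range i, W i k * ∑ l ∈ range j, W j l *
      (1 + Psi a C b x0 (max k (i - 1 - k)) (max l (j - 1 - l)))) :
    ∀ n : ℕ, (∀ N ≤ n, a * H N ^ 2 - C * H N ≤ f N) ∧
      (∀ i ≤ n, ∀ j ≤ n, Psi a C b x0 i j ≤ P i j) := by
  -- pairs from singles and smaller pairs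
  have key : ∀ n : ℕ, (∀ N ≤ n, a * H N ^ 2 - C * H N ≤ f N) →
      (∀ i < n, ∀ j < n, Psi a C b x0 i j ≤ P i j) →
      ∀ i ≤ n, ∀ j ≤ i, Psi a C b x0 i j ≤ P i j := by
    intro n hs hp i hi j hji
    by_cases hc : x0 < H i ∧ H i - H j ≤ 1 / 4
    · obtain ⟨hc1, hc2⟩ := hc
      have hj : 1 ≤ j := by
        by_contra h
        have h0 : j = 0 := by omega
        rw [h0, H_zero] at hc2
        linarith
      have hi1 : 1 ≤ i := by omega
      refine (h2 i j hj hji hc1 hc2).trans ?_
      refine le_trans ?_ (P_rec hi1 hj)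
      refine sum_le_sum fun k hk => mul_le_mul_of_nonneg_left ?_ (W_nonneg (mem_range.1 hk))
      refine sum_le_sum fun l hl => mul_le_mul_of_nonneg_left ?_ (W_nonneg (mem_range.1 hl))
      have hk' := mem_range.1 hk
      have hl' := mem_range.1 hl
      exact add_le_add_right (hp _ (max_lt (by omega) (by omega)) _ (max_lt (by omega) (by omega))) _
    · have h0 : max 0 (H (max i j) - x0) * g (H i - H j) = 0 := by
        rw [max_eq_left hji]
        rw [not_and_or, not_lt, not_le] at hc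
        rcases hc with h | h
        · rw [max_eq_left (by linarith), zero_mul]
        · have : g (H i - H j) = 0 := by
            unfold g
            rw [abs_of_nonneg (by linarith), max_eq_left (by linarith)]
          rw [this, mul_zero]
      unfold Psi
      rw [h0, mul_zero, add_zero]
      refine le_trans ?_ (f_le_P i j)
      rw [max_eq_left hji]
      exact hs i hi
  have key2 : ∀ n : ℕ, (∀ N ≤ n, a * H N ^ 2 - C * H N ≤ f N) →
      (∀ i < n, ∀ j < n, Psi a C b x0 i j ≤ P i j) →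
      ∀ i ≤ n, ∀ j ≤ n, Psi a C b x0 i j ≤ P i j := by
    intro n hs hp i hi j hj
    rcases le_total j i with h | h
    · exact key n hs hp i hi j h
    · rw [Psi_comm, P_comm]
      exact key n hs hp j hj i h
  intro n
  induction n with
  | zero =>
    have hs : ∀ N ≤ 0, a * H N ^ 2 - C * H N ≤ f N := by
      intro N hN
      have : N = 0 := by omega
      rw [this, H_zero, f_zero]
      simp
    exact ⟨hs, key2 0 hs (fun i hi => absurd hi (by omega))⟩
  | succ n ih =>
    obtain ⟨ih1, ih2⟩ := ih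
    have hs : ∀ N ≤ n + 1, a * H N ^ 2 - C * H N ≤ f N := by
      intro N hN
      rcases Nat.lt_or_ge N (n + 1) with h | h
      · exact ih1 N (by omega)
      · have hN' : N = n + 1 := by omega
        refine (h1 N (by omega)).trans ?_
        rw [f_rec (show 1 ≤ N by omega)]
        refine add_le_add_right (sum_le_sum fun i hi => ?_) _
        have hi' := mem_range.1 hi
        exact mul_le_mul_of_nonneg_left (ih2 i (by omega) _ (by omega)) (W_nonneg hi')
    exact ⟨hs, key2 (n + 1) hs fun i hi j hj => ih2 i (by omega) j (by omega)⟩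

lemma pi_small : Real.pi ^ 2 / 12 ≤ 1 := by
  have h1 := Real.pi_lt_d2
  have h2 := Real.pi_pos
  nlinarith

/-- The mean height is at least `(1 + 10⁻⁷) (6 / π²) H² - C H`. -/
theorem f_ge : ∃ C : ℝ, ∀ N : ℕ,
    (1 + 1 / 10000000) * (6 / Real.pi ^ 2) * H N ^ 2 - C * H N ≤ f N := by
  set s : ℝ := Real.pi ^ 2 / 12 with hs
  have hs0 : 0 < s := by positivity
  have hs1 : s ≤ 1 := pi_small
  set e : ℝ := 1 / 10000000 with he
  set a : ℝ := (1 + e) * (6 / Real.pi ^ 2) with ha
  have ha' : 2 * a = (1 + e) / s := by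
    rw [ha, hs]
    field_simp
    norm_num
  have ha0 : 0 < a := by positivity
  set b : ℝ := 1 / 2400 with hb
  -- thresholds
  obtain ⟨N2, hN2⟩ := eventually_atTop.mp
    (sg_tendsto.eventually (eventually_lt_nhds (show s < s + 1 / 400 by linarith)))
  obtain ⟨N1, hN1⟩ := eventually_atTop.mp
    (sg_tendsto.eventually (eventually_lt_nhds (show s < s * (1 + e) by nlinarith)))
  set x0 : ℝ := max 3601 (H (max N2 100)) with hx0
  obtain ⟨N3, hN3⟩ := eventually_atTop.mp
    (H_tendsto_atTop.eventually (eventually_ge_atTop (2 * (x0 + 1))))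
  set N4 := max (max N1 N3) 100 with hN4
  have hx01 : (3601 : ℝ) ≤ x0 := le_max_left _ _
  set C : ℝ := 2 * a * H N4 with hC
  have hC0 : 0 ≤ C := by have := H_nonneg N4; positivity
  refine ⟨C, fun N => (induct (a := a) (C := C) (b := b) (x0 := x0) (by linarith)
    ?_ ?_ N).1 N le_rfl⟩
  · intro N hN
    refine single_step hN ha0.le ?_
    have hH := H_pos hN
    have hsg := sg_ge hN
    have hnn : 0 ≤ ∑ i ∈ range N, W N i *
        (max 0 (H (max i (N - 1 - i)) - x0) * g (H i - H (N - 1 - i))) :=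
      sum_nonneg fun i hi => mul_nonneg (W_nonneg (mem_range.1 hi))
        (mul_nonneg (le_max_left _ _) (g_nonneg _))
    by_cases hc : N4 ≤ N
    · have h1 := hN1 N (by omega)
      have h2 := gam (show 100 ≤ N by omega) (hN3 N (by omega))
      have h3 : 2 * a * sg N ≤ (1 + e) * (1 + e) := by
        rw [ha', div_mul_eq_mul_div, div_le_iff₀ hs0]
        nlinarith
      have h4 : 0 ≤ C * sg N / H N := by positivity
      have h5 : (1 + e) * (1 + e) ≤ 1 + b * (1 / 1000) := by
        rw [he, hb]; norm_num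
      have h6 : b * (1 / 1000) ≤ b * ∑ i ∈ range N, W N i *
        (max 0 (H (max i (N - 1 - i)) - x0) * g (H i - H (N - 1 - i))) :=
        mul_le_mul_of_nonneg_left h2 (by norm_num)
      have h7 := (h3.trans h5).trans (add_le_add_right h6 1)
      refine h7.trans ?_
      generalize b * ∑ i ∈ range N, W N i *
        (max 0 (H (max i (N - 1 - i)) - x0) * g (H i - H (N - 1 - i))) = T
      generalize C * sg N / H N = T' at h4 ⊢
      linarith
    · have h1 : H N ≤ H N4 := H_mono (by omega)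
      have h2 : 2 * a * sg N ≤ C * sg N / H N := by
        rw [le_div_iff₀ hH, hC]
        have h3 : 0 ≤ 2 * a * sg N := by positivity
        nlinarith
      have h3 : 0 ≤ b * ∑ i ∈ range N, W N i *
        (max 0 (H (max i (N - 1 - i)) - x0) * g (H i - H (N - 1 - i))) := by positivity
      linarith
  · intro i j hj hji hxi hu
    have hi : max N2 100 < i := by
      by_contra h
      have h1 := H_mono (show i ≤ max N2 100 by omega)
      have h2 : H (max N2 100) ≤ x0 := le_max_right _ _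
      linarith
    have hsg := hN2 i (by omega)
    refine pair_step ha0.le hC0 (by norm_num) hj hji (by omega) hxi (by linarith) hu
      (by linarith) ?_
    have h1 : 2 * a * (sg i - 1 / 100 + 1 / 400) ≤ (1 + e) * (1 - 1 / 200) := by
      rw [ha', div_mul_eq_mul_div, div_le_iff₀ hs0]
      have h2 : sg i - 1 / 100 + 1 / 400 ≤ s - 1 / 200 := by linarith
      have h3 : (1 + e) * (sg i - 1 / 100 + 1 / 400) ≤ (1 + e) * (s - 1 / 200) :=
        mul_le_mul_of_nonneg_left h2 (by positivity)
      have h4 : s - 1 / 200 ≤ (1 - 1 / 200) * s := by linarith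
      have h5 : (1 + e) * (s - 1 / 200) ≤ (1 + e) * ((1 - 1 / 200) * s) :=
        mul_le_mul_of_nonneg_left h4 (by positivity)
      linarith
    have h6 : (1 + e) * (1 - 1 / 200) + 6 * b ≤ 1 := by rw [he, hb]; norm_num
    linarith

end Pool.Agent.U736.CE
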